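import Pool.Agent.H5.BC.Ext

/-!
# MP_48c1a1_co, Q1 in a stronger form: Gaussian tails of the deficiency `n - bc(G(n, 1/2))`

`H2BC.bc G` (library, `H2BC/Final.lean`) is the biclique partition number of `G`: the least `r` such
that there are `r` pairs `(A i, B i)` of nonempty disjoint vertex sets, every vertex of `A i`
adjacent to every vertex of `B i`, such that each edge of `G` belongs to exactly one of the `r`
complete bipartite graphs (`H2BC.BicliquePartition`).  `G.indepNum` is the independence number and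
`G.induce S` the subgraph induced on `S`.
-/

set_option autoImplicit false

open Finset Filter Topology

namespace Pool.Agent.Results.MP_48c1a1_co.DeficiencyTails

/-- The probability that `G(n, 1/2)` (the uniform random graph on `Fin n`) has the property `P`. -/
noncomputable def prob (n : ℕ) (P : SimpleGraph (Fin n) → Prop) : ℝ :=
  (Nat.card {G : SimpleGraph (Fin n) // P G} : ℝ) / (Nat.card (SimpleGraph (Fin n)) : ℝ)

open H2BC

lemma prob_eq (n : ℕ) (P : SimpleGraph (Fin n) → Prop) :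
    prob n P = Pr (fun ω : Sym2 (Fin n) → Bool => P (gr ω)) := by
  unfold prob
  rw [Pr_gr, card_simpleGraph]
  push_cast
  rfl

lemma prob_mono {n : ℕ} {P Q : SimpleGraph (Fin n) → Prop} (h : ∀ G, P G → Q G) :
    prob n P ≤ prob n Q := by
  rw [prob_eq, prob_eq]
  exact Pr_mono fun ω => h _

lemma prob_le_one {n : ℕ} {P : SimpleGraph (Fin n) → Prop} : prob n P ≤ 1 := by
  rw [prob_eq]; exact Pr_le_one _

lemma prob_compl {n : ℕ} {P : SimpleGraph (Fin n) → Prop} :
    prob n P = 1 - prob n (fun G => ¬ P G) := by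
  rw [prob_eq, prob_eq, Pr_not]; ring

/-- lower bound for the upper tail -/
lemma lower_tail (n s : ℕ) (hs : s ≤ n) :
    Real.exp (-(s : ℝ) ^ 2) ≤ prob n (fun G => bc G + s ≤ n) := by
  obtain ⟨J, -, hJ⟩ := Finset.exists_subset_card_eq (s := (Finset.univ : Finset (Fin n))) (n := s)
    (by simpa using hs)
  have h1 : Pr (fun ω : Sym2 (Fin n) → Bool => ∀ i ∈ J.sym2, ω i = false) ≤
      prob n (fun G => bc G + s ≤ n) := by
    rw [prob_eq]
    refine Pr_mono fun ω hω => ?_
    have h2 := Pool.Agent.H5.BC.bc_le_of_indep (gr ω) J fun x hx y hy hxy => by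
      have h3 := hω s(x, y) (by simp [hx, hy])
      rw [hxy.2] at h3
      exact absurd h3 (by simp)
    rw [hJ] at h2
    omega
  refine le_trans ?_ h1
  rw [Pr_cyl, Finset.card_sym2, hJ]
  have h3 : (2 : ℝ) * ((s + 1).choose 2 : ℕ) = (s + 1) * s := by
    rw [Nat.choose_two_right]
    have h4 : 2 * ((s + 1) * (s + 1 - 1) / 2) = (s + 1) * s := by
      rw [Nat.add_sub_cancel]
      exact Nat.mul_div_cancel' (by
        rw [mul_comm]; exact (Nat.even_mul_succ_self s).two_dvd)
    exact_mod_cast h4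
  have h5 : ((1 : ℝ) / 2) ^ ((s + 1).choose 2) = Real.exp (-(((s + 1).choose 2 : ℕ) * Real.log 2)) := by
    rw [Real.exp_neg, Real.exp_nat_mul, Real.exp_log (by norm_num), one_div, inv_pow]
  rw [h5]
  apply Real.exp_le_exp.2
  have h6 := Real.log_two_lt_d9
  have h7 := Real.log_two_gt_d9
  rcases Nat.eq_zero_or_pos s with rfl | hpos
  · simp
  · have h8 : (1 : ℝ) ≤ s := by exact_mod_cast hpos
    have h9 : (((s + 1).choose 2 : ℕ) : ℝ) * Real.log 2 ≤ ((s + 1).choose 2 : ℕ) * 1 :=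
      mul_le_mul_of_nonneg_left (by linarith) (by positivity)
    nlinarith

lemma induce_event {n : ℕ} (G : SimpleGraph (Fin n)) (S : Finset (Fin n)) :
    (bc G : ℝ) + #S ≤ bc (G.induce (S : Set (Fin n))) + n := by
  have h1 := Pool.Agent.H5.BC.bc_le_induce G S
  have h2 : #S ≤ n := by simpa using Finset.card_le_univ S
  have h3 : bc G + #S ≤ bc (G.induce (S : Set (Fin n))) + n := by omega
  exact_mod_cast h3

/-- the logarithm is at most four times the lower bound for the independence number -/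
lemma log_le_alpha (n : ℕ) (hn : 4 ≤ n) : Real.log (n + 1) ≤ 4 * (Nat.log 2 n / 2 : ℕ) := by
  have hk1 : 1 ≤ Nat.log 2 n / 2 := by
    have : 2 ≤ Nat.log 2 n := by
      have := Nat.log_mono_right (b := 2) hn
      have h4 : Nat.log 2 4 = 2 := by
        rw [show (4 : ℕ) = 2 ^ 2 by norm_num, Nat.log_pow (by norm_num)]
      omega
    omega
  have h1 : n + 1 ≤ 2 ^ (Nat.log 2 n + 1) := Nat.lt_pow_succ_log_self (by norm_num) n
  have h2 : ((n : ℝ) + 1) ≤ 2 ^ (Nat.log 2 n + 1) := by exact_mod_cast h1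
  have h3 : Real.log (n + 1) ≤ Real.log (2 ^ (Nat.log 2 n + 1)) :=
    Real.log_le_log (by positivity) h2
  rw [Real.log_pow] at h3
  have h4 : Real.log 2 ≤ 1 := by
    have := Real.log_two_lt_d9; linarith
  have h5 : ((Nat.log 2 n + 1 : ℕ) : ℝ) * Real.log 2 ≤ (Nat.log 2 n + 1 : ℕ) * 1 :=
    mul_le_mul_of_nonneg_left h4 (by positivity)
  have h6 : Nat.log 2 n + 1 ≤ 4 * (Nat.log 2 n / 2) := by omega
  have h7 : ((Nat.log 2 n + 1 : ℕ) : ℝ) ≤ 4 * (Nat.log 2 n / 2 : ℕ) := by exact_mod_cast h6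
  linarith

lemma asym (K : ℝ) (hK : 0 < K) : ∀ᶠ n : ℕ in atTop,
    Real.exp (-((K + 1) * Real.log ((n : ℝ) + 1)) ^ 2) +
      Real.exp (2 * Real.log ((n : ℝ) + 1) ^ 2 - Real.sqrt n + 1) ≤
      Real.exp (-(K * Real.log n ^ 2)) := by
  have h1 := isLittleO_log_rpow_rpow_atTop (2 : ℝ) (show (0 : ℝ) < 1 / 2 by norm_num)
  have h2 : ∀ᶠ x : ℝ in atTop, ‖Real.log x ^ (2 : ℝ)‖ ≤ (1 / (4 * (K + 2))) * ‖x ^ (1 / 2 : ℝ)‖ :=
    h1.def (by positivity)
  have h3 : Tendsto (fun n : ℕ => (n : ℝ) + 1) atTop atTop :=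
    tendsto_atTop_add_const_right _ _ tendsto_natCast_atTop_atTop
  filter_upwards [h3.eventually h2, eventually_ge_atTop 100] with n hn hn1
  have hn1' : (100 : ℝ) ≤ n := by exact_mod_cast hn1
  rw [Real.rpow_two, ← Real.sqrt_eq_rpow, Real.norm_of_nonneg (sq_nonneg _),
    Real.norm_of_nonneg (Real.sqrt_nonneg _)] at hn
  set L := Real.log ((n : ℝ) + 1) with hL
  have hL1 : 1 ≤ L := by
    rw [hL, Real.le_log_iff_exp_le (by positivity)]
    have := Real.exp_one_lt_d9
    linarith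
  have hlogn : Real.log n ≤ L := Real.log_le_log (by linarith) (by linarith)
  have hlogn0 : 0 ≤ Real.log n := Real.log_nonneg (by linarith)
  have hsq : Real.log n ^ 2 ≤ L ^ 2 := by nlinarith
  have hKsq : K * Real.log n ^ 2 ≤ K * L ^ 2 := mul_le_mul_of_nonneg_left hsq hK.le
  have hLL : 1 ≤ L ^ 2 := by nlinarith
  have h6 : Real.sqrt ((n : ℝ) + 1) ≤ Real.sqrt n + 1 := by
    rw [Real.sqrt_le_left (by positivity)]
    have := Real.sq_sqrt (show (0 : ℝ) ≤ n by linarith)
    nlinarith [Real.sqrt_nonneg (n : ℝ)]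
  have h10 : (10 : ℝ) ≤ Real.sqrt n := by
    rw [show (10 : ℝ) = Real.sqrt 100 by rw [show (100 : ℝ) = 10 ^ 2 by norm_num]; simp]
    exact Real.sqrt_le_sqrt hn1'
  have h7 : (K + 2) * L ^ 2 ≤ (Real.sqrt n + 1) / 4 := by
    have h8 := mul_le_mul_of_nonneg_left hn (show (0 : ℝ) ≤ K + 2 by linarith)
    have h9 : (K + 2) * (1 / (4 * (K + 2)) * Real.sqrt ((n : ℝ) + 1)) =
        Real.sqrt ((n : ℝ) + 1) / 4 := by
      field_simp
    rw [h9] at h8
    linarith
  have e1 := Pool.Agent.H5.BC.exp_neg_one_le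
  have a1 : Real.exp (-((K + 1) * L) ^ 2) ≤ Real.exp (-(K * Real.log n ^ 2)) * Real.exp (-1) := by
    rw [← Real.exp_add]
    apply Real.exp_le_exp.2
    have : (K + 1) ^ 2 * L ^ 2 = K * L ^ 2 + (K ^ 2 + K + 1) * L ^ 2 := by ring
    have h9 : (1 : ℝ) ≤ (K ^ 2 + K + 1) * L ^ 2 := by nlinarith
    nlinarith
  have a2 : Real.exp (2 * L ^ 2 - Real.sqrt n + 1) ≤
      Real.exp (-(K * Real.log n ^ 2)) * Real.exp (-1) := by
    rw [← Real.exp_add]
    apply Real.exp_le_exp.2
    nlinarith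
  have := Real.exp_pos (-(K * Real.log n ^ 2))
  nlinarith

/-- **Main theorem.**  (1) Two-sided Gaussian tails for the deficiency `n - bc(G)`, uniformly for
`C log (n + 1) ≤ s ≤ n`; the upper bound holds for all induced subgraphs at once.
(2) For every `K` there is a constant `C_K` such that, with failure probability at most
`n ^ (-K log n)`, all induced subgraphs satisfy `bc(G[S]) ≥ |S| - C_K α(G)`.
(3) The statement Q1 as posed. -/
theorem result :
    (∃ C : ℝ, 0 < C ∧ ∀ n s : ℕ, C * Real.log (n + 1) ≤ s → s ≤ n →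
      Real.exp (-(s : ℝ) ^ 2) ≤ prob n (fun G => bc G + s ≤ n) ∧
      prob n (fun G => bc G + s ≤ n) ≤ Real.exp (-(s : ℝ) ^ 2 / C) ∧
      prob n (fun G => ∃ S : Finset (Fin n), bc (G.induce (S : Set (Fin n))) + s ≤ #S) ≤
        Real.exp (-(s : ℝ) ^ 2 / C)) ∧
    (∀ K : ℝ, 0 < K → ∃ C : ℝ, 0 < C ∧ ∀ᶠ n : ℕ in atTop,
      1 - Real.exp (-(K * Real.log n ^ 2)) ≤ prob n (fun G => ∀ S : Finset (Fin n),
        (#S : ℝ) - C * G.indepNum ≤ bc (G.induce (S : Set (Fin n))))) ∧
    (∃ C : ℝ, 0 < C ∧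
      Tendsto (fun n : ℕ => prob n (fun G => (n : ℝ) - C * G.indepNum ≤ bc G)) atTop (𝓝 1)) := by
  obtain ⟨C₁, hC₁, htail⟩ := Pool.Agent.H5.BC.tail
  have main2 : ∀ K : ℝ, 0 < K → ∃ C : ℝ, 0 < C ∧ ∀ᶠ n : ℕ in atTop,
      1 - Real.exp (-(K * Real.log n ^ 2)) ≤ prob n (fun G => (n : ℝ) - C * G.indepNum ≤ bc G) := by
    intro K hK
    refine ⟨4 * (K + 1) * C₁, by positivity, ?_⟩
    filter_upwards [asym K hK, eventually_ge_atTop 4] with n hn hn4
    have hn1 : 1 ≤ n := by omega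
    have hlog := Pool.Agent.H5.BC.log_half n hn1
    have e1 := htail n hn1 ((K + 1) * Real.log (n + 1)) (by nlinarith)
    have e2 := (Pr_alpha n (Nat.log 2 n / 2)).trans (alpha_err n hn1)
    rw [prob_compl]
    have e3 : prob n (fun G => ¬ ((n : ℝ) - 4 * (K + 1) * C₁ * G.indepNum ≤ bc G)) ≤
        Pr (fun ω : Sym2 (Fin n) → Bool => (bc (gr ω) : ℝ) + C₁ * ((K + 1) * Real.log (n + 1)) < n ∨
          (gr ω).indepNum < Nat.log 2 n / 2) := by
      rw [prob_eq]
      refine Pr_mono fun ω hω => ?_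
      by_contra hcon
      push Not at hcon
      obtain ⟨h1, h2⟩ := hcon
      apply hω
      have h3 := log_le_alpha n hn4
      have h4 : ((Nat.log 2 n / 2 : ℕ) : ℝ) ≤ (gr ω).indepNum := by exact_mod_cast h2
      have h5 : C₁ * ((K + 1) * Real.log (n + 1)) ≤ C₁ * ((K + 1) * (4 * (gr ω).indepNum)) :=
        mul_le_mul_of_nonneg_left (mul_le_mul_of_nonneg_left (by linarith) (by linarith)) hC₁.le
      linarith
    have e4 := Pr_or (fun ω : Sym2 (Fin n) → Bool =>
      (bc (gr ω) : ℝ) + C₁ * ((K + 1) * Real.log (n + 1)) < n)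
      (fun ω => (gr ω).indepNum < Nat.log 2 n / 2)
    linarith
  refine ⟨⟨C₁ ^ 2 + C₁ + 1, by positivity, fun n s hs hsn => ?_⟩, fun K hK => ?_, ?_⟩
  · have hup : prob n (fun G => bc G + s ≤ n) ≤ Real.exp (-(s : ℝ) ^ 2 / (C₁ ^ 2 + C₁ + 1)) := by
      rcases Nat.eq_zero_or_pos n with rfl | hn
      · have : s = 0 := by omega
        subst this
        simpa using prob_le_one
      have hlog := Pool.Agent.H5.BC.log_half n hn
      set c := C₁ ^ 2 + C₁ + 1 with hc
      have hs0 : (0 : ℝ) < s := lt_of_lt_of_le (by positivity) hs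
      obtain ⟨t, ht⟩ : ∃ t : ℝ, t = s / Real.sqrt c := ⟨_, rfl⟩
      have hc0 : 0 < c := by positivity
      have hsc : 0 < Real.sqrt c := Real.sqrt_pos.2 hc0
      have hsq : Real.sqrt c ^ 2 = c := Real.sq_sqrt hc0.le
      have hc1 : 1 ≤ c := by nlinarith
      have hsc1 : 1 ≤ Real.sqrt c := by
        rw [show (1 : ℝ) = Real.sqrt 1 by simp]; exact Real.sqrt_le_sqrt hc1
      have hC1c : C₁ < Real.sqrt c := by
        rw [Real.lt_sqrt hC₁.le]; rw [hc]; linarith
      have ht1 : Real.log (n + 1) ≤ t := by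
        rw [ht, le_div_iff₀ hsc]
        have : Real.log (n + 1) * Real.sqrt c ≤ Real.log (n + 1) * c := by
          refine mul_le_mul_of_nonneg_left ?_ (by linarith)
          nlinarith
        linarith
      have e1 := htail n hn t ht1
      have e2 : -t ^ 2 = -(s : ℝ) ^ 2 / c := by
        rw [ht, div_pow, hsq]; ring
      rw [e2] at e1
      refine le_trans ?_ e1
      rw [prob_eq]
      refine Pr_mono fun ω hω => ?_
      have h1 : (bc (gr ω) : ℝ) + s ≤ n := by exact_mod_cast hω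
      have h2 : C₁ * t < s := by
        have h3 : Real.sqrt c * t = s := by rw [ht]; field_simp
        have h4 : 0 < t := by linarith
        nlinarith
      linarith
    refine ⟨lower_tail n s hsn, hup, le_trans (prob_mono fun G => ?_) hup⟩
    rintro ⟨S, hS⟩
    have h1 := induce_event G S
    have h2 : (bc (G.induce (S : Set (Fin n))) : ℝ) + s ≤ #S := by exact_mod_cast hS
    have h3 : (bc G : ℝ) + s ≤ n := by linarith
    exact_mod_cast h3
  · obtain ⟨C, hC, h⟩ := main2 K hK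
    refine ⟨C, hC, h.mono fun n hn => hn.trans (prob_mono fun G hG S => ?_)⟩
    have h1 := induce_event G S
    linarith
  · obtain ⟨C, hC, h⟩ := main2 1 one_pos
    refine ⟨C, hC, ?_⟩
    have h2 : Tendsto (fun n : ℕ => 1 - Real.exp (-(1 * Real.log n ^ 2))) atTop (𝓝 1) := by
      have h3 : Tendsto (fun n : ℕ => Real.log (n : ℝ) ^ 2) atTop atTop :=
        (tendsto_pow_atTop (two_ne_zero)).comp (Real.tendsto_log_atTop.comp tendsto_natCast_atTop_atTop)
      have h4 : Tendsto (fun n : ℕ => Real.exp (-(1 * Real.log n ^ 2))) atTop (𝓝 0) := by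
        refine Real.tendsto_exp_atBot.comp ?_
        simpa using h3
      simpa using (tendsto_const_nhds (x := (1 : ℝ))).sub h4
    exact tendsto_of_tendsto_of_tendsto_of_le_of_le' h2 tendsto_const_nhds h
      (Eventually.of_forall fun n => prob_le_one)

end Pool.Agent.Results.MP_48c1a1_co.DeficiencyTails
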